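import Pool.Agent.Run7.h798.Tate.SmoothAll

/-!
# MP_2a05c8_ag, Q1: the Tate conjecture for smooth varieties and singular cubic hypersurfaces

`T K j X` is the cycle class map `CH_j(X) ⊗ ℚ_ℓ → H_{2j}(X̄, ℚ_ℓ(j))^{G_K}`; for smooth `X` of dimension
`d` it is `c^i : CH^i(X) ⊗ ℚ_ℓ → H^{2i}(X̄, ℚ_ℓ(i))^{G_K}` with `i = d - j`. Over the prime field of
characteristic `p` the object `R j X` is the cycle class map `CH_j(X) ⊗ ℚ_ℓ → H_{2j}(X̄, ℚ_ℓ(j))` with
the Frobenius endomorphism. The structures `CycleTheory` and the properties `Geometric`, `Covered`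
collect the known facts which are used. `projHyp k F` is the (reduced) hypersurface `F = 0` in the
projective space over `k`.
-/

set_option autoImplicit false

open CategoryTheory AlgebraicGeometry Pool.Agent.Y116.UV Pool.Agent.Q193.LT Pool.Agent.Q282.UK
  Pool.Agent.Q282.UZ Run7.h798.UV Run7.h798.Tate

universe w

namespace Pool.Agent.Results.MP_2a05c8_ag.CubicHypersurfaces

/-- **Theorem.** Let `N` be a natural number.

(a) The conjecture `T^i(X)` for all smooth varieties `X` (proper or not) over all finitely generated
fields of characteristic zero and all `i` is true if and only if the cycle class maps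
`CH_j(V) ⊗ ℚ_ℓ → H_{2j}(V̄, ℚ_ℓ(j))^G` are surjective in the dimensions `j ≥ N` for the (singular) cubic
hypersurfaces `V` in the projective spaces over `ℚ`; it is enough to know it for the cubic forms
`∑_l z_l f_l(x, y)`, where every `f_l` is a sum of at most three monomials `x_i y_j`.

(b) The conjecture is true for all smooth varieties over all finitely generated fields of characteristic
`p` if and only if in the dimensions `j ≥ N` and for these cubic hypersurfaces over the prime field the
cycle class maps are surjective onto the fixed vectors and the eigenvalue `1` of Frobenius is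
semisimple. -/
theorem result {E : Type} [Field E] (N : ℕ) :
    (∀ D : CharZero.CycleTheory.{w} E, D.Geometric → D.Covered →
      (D.SmoothVarieties ↔ D.Cubics N) ∧ (D.SmoothVarieties ↔ D.Trilinear N)) ∧
    ∀ (p : ℕ) [Fact p.Prime] (D : CharP.CycleTheory.{w} p E), D.Geometric → D.Covered →
      (D.SmoothVarieties ↔ D.Cubics N) ∧ (D.SmoothVarieties ↔ D.Trilinear N) :=
  ⟨fun D h hc => CharZero.smooth_iff D h hc N, fun _ _ D h hc => CharP.smooth_iff D h hc N⟩

end Pool.Agent.Results.MP_2a05c8_ag.CubicHypersurfaces
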