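import Pool.Agent.Run7.h552.PG.TO

/-!
# The Tate conjecture for products is decided by pairs

Let `W` be a Weil cohomology whose coefficient field is isomorphic to `ℂ`, for a class of smooth
projective varieties over a field which is closed under products, and let a group `Γ` with a character
`χ` act on the cohomology rings of certain varieties, with the formal properties of a Galois action.
The example: varieties over a finitely generated field `F` of any characteristic, the cohomology with
coefficients in an algebraic closure of `ℚ_ℓ`, the Galois group of `F`, and the inverse of the
cyclotomic character. A class in `H^(2n)(V)` on which a subgroup of finite index acts by `χ ^ n` is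
called a *Tate class*, and `TateConjecture χ V` says that all Tate classes are linear combinations
of classes of algebraic cycles. For a subgroup `Δ` of finite index, the Galois group of a finite
extension `F'` of `F`, the condition `TateOver χ Δ V` says that the classes on which `Δ` acts by `χ ^ n`
are combinations of classes of cycles with the same property: this is the statement `T^n(V)` over
`F'`, for all `n`.

A *piece* of the cohomology of a variety `X` is a stable subspace, in one degree, which is irreducible
under all subgroups of finite index, carries a nondegenerate symmetric or alternating form which is
preserved up to a character, and satisfies a local condition (`LocalType`): some Frobenius element, at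
some place of good reduction, has slopes as in the ordinary reduction of a K3 surface (even type:
slopes `h + c`, `h`, `h - c` with the multiplicities `p`, `q`, `p`, where `p = 1` and `q ≠ 2`, or `p`
and `q` are coprime and `q` is large), or an isolated slope, or Newton polygon of height one (odd type);
or some element of an inertia group acts by `(g - 1) ^ 2 = 0` with small or coprime defects (odd type), or
like a K3 surface of type III (even type).

Let `X_i` be varieties whose cohomology *algebras* are generated by Tate classes and pieces, in
finitely many ways, with any number of pieces, in any degrees. (For example curves, complete
intersections, but also moduli spaces of stable bundles on curves, Hilbert schemes of points and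
moduli spaces of sheaves on K3 surfaces, whose cohomology is generated by the Kuenneth components of
the Chern classes of a universal sheaf, and varieties whose cohomology is generated by that in
degrees two and three.) Suppose that two pieces are either isomorphic up to a function on the group
(`Linked`) or not (`Apart`), in degrees of the same parity in the first case. Let `Z` be *any* variety
with which the pieces `T` are not *entangled*: there is no Lie algebra `L` of operators on (a part `U`
of) the cohomology of `Z`, stable under conjugation by the group, with an equivariant homomorphism of
Lie algebras from `L` to the operators on `T` with a noncommutative image. It is enough that this is so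
for stable subspaces `U` which generate the cohomology algebra of `Z` together with classes on which
the group acts by powers of `χ`, or that the dimension of `U` is low.

**Theorem.** Let `Y = X_(L 0) × X_(L 1) × ⋯ × Z`; if there are pieces of orthogonal type, the number
of factors is limited (`Few`). All Tate classes on `Y` are polynomials in pull-backs of Tate classes on
`Z`, on the factors `X_(L a)`, and on the products `X_(L a) × X_(L b)` of two linked factors. So the
statement `T^n(Y)` holds for all `n` over all finite extensions of `F` if and only if the Tate
conjecture holds for `Z`, for the factors, and for the products of two linked factors. (That it holds
for the latter if it holds for `Y` uses zero-cycles of degree different from zero, which exist over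
the algebraic closure.)

The idea is explained in the file `MP_0da4e0_ag.PairsDecide`, which is about Hodge classes.
-/

set_option autoImplicit false

open CategoryTheory AlgebraicGeometry

universe u

namespace Pool.Agent.Results.MP_2a05c8_ag.PairsDecide

open Pool.Agent.H914 Pool.Agent.H914.VarClass Pool.Agent.H914.VarClass.Obj
  Pool.Agent.H914.WeilCohomology Pool.Agent.H281R3.HT Pool.Agent.TH125.Gal Run7.h552.NP
  Run7.h552.PD Run7.h552.PG

/-- The Tate classes on products of varieties, whose cohomology algebras are generated by Tate
classes and pieces with symplectic or orthogonal monodromy, are generated by those on `Z`, on the
factors, and on the products of two linked factors; so the Tate conjecture holds for the product if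
and only if it holds for `Z`, the factors, and the products of two linked factors. -/
theorem result {k : Type u} [Field k] {𝒱 : VarClass k} {ops : CycleOps 𝒱}
    (W : WeilCohomology.{u, 0} ops) (e : W.K ≃+* ℂ) {Γ : Type} [Group Γ] (χ : CharOf W Γ)
    (G : Set (GVar W Γ)) {ι : Type} (X : ι → GVar W Γ) (P : ∀ i, Gens (X i)) (Z : GVar W Γ)
    (h : GenFamily χ G X P Z) {m : ℕ} (L : Fin m → ι) (Y : GVar W Γ) (hY : Tow X Z L Y)
    (hG : Run7.h552.NP.GaloisVar χ Y) (hL : Few P L) :
    DecidedByPairs χ P Z L Y := by
  have : IsAlgClosed W.K := IsAlgClosed.of_ringEquiv ℂ W.K e.symm
  exact ⟨fun n x hx => mem_fromPairs e h hY hL hx,
    fun h1 Δ hΔ => over_of_tate hG (tate_of_pairs e h hY hL h1) hΔ,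
    fun h1 h2 => pairs_of_tate h hY h1.1 h1.2 (tate_of_over h2)⟩

end Pool.Agent.Results.MP_2a05c8_ag.PairsDecide
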