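import Pool.Agent.Run7.h784.JP.HI
import Pool.Agent.Run7.h784.JP.AllE
import Pool.Agent.Run7.h957.JP.JS0
import Pool.Agent.Run7.h286.PL.AllM
import Pool.Agent.Run7.h286.PL.SelDef
import Pool.Agent.Run7.h711.TG.Unr
import Pool.Agent.N738.PJ.Exs
import Pool.Agent.N615.JM.FamT2
import Pool.Agent.N615.JM.Tch
import Pool.Agent.N415.PJ.MAIN

/-!
# Divisors on twisted fibre products of `n` families of curves of any genera over a finite field

Let `k` be a finite field of odd characteristic with `q` elements and `K = k(t)`. Let `n ≥ 1` and, for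
`i = 1, ..., n`, let `f_i` in `k[t][x]` be monic of degree `2 g_i + 1` in `x`, `g_i ≥ 1`, without a term
in `x ^ (2 g_i)`, the coefficient of `x ^ j` of degree at most `2 N_i (2 g_i + 1 - j)` in `t`, `N_i ≥ 1`,
such that the discriminants of the `f_i` are squarefree and pairwise coprime and the reductions of the
`f_i` at infinity are irreducible. For a squarefree polynomial `D` in `t`, prime to the discriminants,
consider the smooth projective varieties `X_D` of dimension `n + 1` over `k` with a flat morphism to the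
projective line whose generic fibre is the product over `K` of the curves `D y ^ 2 = f_i(x)`. For such an
`X` the conjecture `T ^ 1(X)` is equivalent to the finiteness of the Tate-Shafarevich group of the
Albanese variety of the generic fibre together with `T ^ 1` of the generic fibre (Geisser). Here the
Albanese variety is the product `A_D` of the Jacobians `J_i` of the curves `D y ^ 2 = f_i(x)`.

Theorem. Fix `k`, the `f_i` and the leading coefficient of `D`, and let the degree of `D` tend to
infinity.
1. The `D` as above are a positive proportion of all the polynomials, `A_D(K)` has no points of order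
   two, and the number `(J_i(K) : 2 J_i(K)) * #Sha(J_i)[2]` is a power of two, say `2 ^ (s_i(D))`.
2. For at least `0.2097 ^ n` of all the `D` (asymptotically: a proportion larger than that) the group
   `A_D(K)` is uniquely divisible by two, that is finite of odd order, and the 2-primary part of the
   Tate-Shafarevich group of `A_D` is zero.
3. The vector `(s_1(D), ..., s_n(D))` has the limit law `α(d_1) ⋯ α(d_n)`, where `α` is the law of Poonen
   and Rains; the average of every function of exponential growth of the vector tends to its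
   expectation for this law, and the average of `(A_D(K) : 2 A_D(K)) * #Sha(A_D)[2]` is `3 ^ n`.
4. If the characteristic is larger than `2 g + 1`, then for every nonzero `Δ` (the product of the
   discriminants of the other `f_i`) a positive proportion of all `f` of genus `g` and height `2 N`,
   `N` to infinity, is in the family with discriminant prime to `Δ`.

So for a positive proportion of all the `D` the Tate conjecture for divisors `T ^ 1(X_D)` holds for the
varieties `X_D`: the finiteness of one primary part of the Tate-Shafarevich group gives the finiteness of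
the whole group and the conjecture of Birch and Swinnerton-Dyer (Tate, Milne, Schneider, Bauer, Kato and
Trihan), and `T ^ 1` of the product of curves over `K` is a theorem of Zarhin.

`J(L)` is the Picard group of the affine coordinate ring `L[x, y] / (y ^ 2 - F)`, because the only
point at infinity of the curve is rational. The Tate-Shafarevich groups and `Sha[2]` are given by
continuous cocycles of the absolute Galois group of `K` with values in `J(K^sep)`
(`Pool/Agent/N352/JB/ShaDef.lean`, `Pool/Agent/Run7/h286/PL/SelDef.lean`).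

The proof is project JPL (helper784: the joint law, with parts by helpers 56, 160, 303, 518, 704, 803,
908, 957; projects PRL (helper286) and TG (helper784)), and the exact sequence
`0 → J(K) / 2 → Sel → Sha[2] → 0` of helper886.
-/

set_option autoImplicit false
set_option linter.all false

namespace Pool.Agent.Results.MP_2a05c8_ag.TwistedFibreProducts

open Polynomial Filter IsDedekindDomain
open scoped Classical Topology
open Pool.Agent.Y713.Jac (J)
open Pool.Agent.N352.Sha (UniquelyDivisible ShaTrivial)
open Run7.h784.JPH (discriminant HasHeight atInfinity InFamily twist Twists weight alpha)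
open Run7.h286.SelDef (ShaTwo twoIndex NoTwoTorsion)

section defs

variable (k : Type) [Field k] {K : Type} [Field K] [Algebra k[X] K] [IsFractionRing k[X] K]

/-- The number `(J(K) : 2 J(K)) * #Sha(J)[2]` for the Jacobian `J` of `y ^ 2 = F(x)` over `K = k(t)`, which
is `2 ^ rank * #Sha(J)[2]` if `J(K)` has no points of order two. -/
noncomputable def mass (F : K[X]) : ℕ := twoIndex (J 2 F K) * Nat.card (ShaTwo k F)

variable {n : ℕ}

/-- The group `A(K)` for the Albanese variety `A` of the product over `K` of the `n` curves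
`y ^ 2 = F_i(x)`, the product of their Jacobians. -/
abbrev AlbPoints (F : Fin n → K[X]) : Type := ∀ i, J 2 (F i) K

/-- The group `Sha(A)[2]` of this Albanese variety. -/
def AlbShaTwo (F : Fin n → K[X]) : Type := ∀ i, ShaTwo k (F i)

/-- The number `(A(K) : 2 A(K)) * #Sha(A)[2]`. -/
noncomputable def albMass (F : Fin n → K[X]) : ℕ :=
  twoIndex (AlbPoints F) * Nat.card (AlbShaTwo k F)

/-- The group `A(K)` is uniquely divisible by two and the 2-primary part of the Tate-Shafarevich group
of `A` is zero. -/
structure NoTwoPart (F : Fin n → K[X]) : Prop where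
  points : UniquelyDivisible 2 (AlbPoints F)
  sha : ∀ i, ShaTrivial 2 (F i) k[X]

/-- `A(K)` has no points of order two, `(A(K) : 2 A(K))` is finite, and the numbers
`(J_i(K) : 2 J_i(K)) * #Sha(J_i)[2]` are powers of two. -/
structure Regular (F : Fin n → K[X]) : Prop where
  torsion : NoTwoTorsion (AlbPoints F)
  finite : twoIndex (AlbPoints F) ≠ 0
  power : ∀ i, mass k (F i) = 2 ^ Nat.log 2 (mass k (F i))

end defs

section statements

variable {k : Type} [Field k] (K : Type) [Field K] [Algebra k[X] K] [IsFractionRing k[X] K] {n : ℕ}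

/-- The equations `y ^ 2 = F_i(x)` of the `n` curves `D y ^ 2 = f_i(x)` over `K = k(t)`, whose product is
the generic fibre of `X_D`. -/
noncomputable def fibres (f : Fin n → k[X][X]) (D : k[X]) : Fin n → K[X] := fun i => twist K (f i) D

/-- The binary logarithm `s_i(D)` of `(J_i(K) : 2 J_i(K)) * #Sha(J_i)[2]`, `J_i` the Jacobian of
`D y ^ 2 = f_i(x)`. -/
noncomputable def logs (f : Fin n → k[X][X]) (D : k[X]) (i : Fin n) : ℕ :=
  Nat.log 2 (mass k (fibres K f D i))

variable (g : Fin n → ℕ) (f : Fin n → k[X][X]) (u : k)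

/-- The mean of `F` over the twists of degree `m` tends to `l`. -/
def MeanTendsTo (F : k[X] → ℝ) (l : ℝ) : Prop :=
  Tendsto (fun m => (∑ᶠ D ∈ Twists g f u m, F D) / ((Twists g f u m).ncard : ℝ)) atTop (𝓝 l)

/-- `s(D) = d` for the proportion `α(d_1) ⋯ α(d_n)` of the twists. -/
def HasLaw : Prop :=
  ∀ d : Fin n → ℕ, Tendsto (fun m => (({D ∈ Twists g f u m | logs K f D = d} : Set k[X]).ncard : ℝ) /
    ((Twists g f u m).ncard : ℝ)) atTop (𝓝 (∏ i, alpha (d i)))

/-- The means of the functions of exponential growth of `s(D)`. -/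
def HasMeans : Prop :=
  ∀ φ : (Fin n → ℕ) → ℝ, (∃ C y : ℝ, ∀ d, |φ d| ≤ C * y ^ (∑ i, d i)) →
    MeanTendsTo g f u (fun D => φ (logs K f D)) (∑' d : Fin n → ℕ, φ d * ∏ i, alpha (d i))

/-- For all large `m` the property `NoTwoPart` holds for at least `0.2097 ^ n` of the twists. -/
def Often : Prop :=
  ∀ᶠ m : ℕ in atTop, (0.2097 : ℝ) ^ n * ((Twists g f u m).ncard : ℝ) ≤
    (({D ∈ Twists g f u m | NoTwoPart k (fibres K f D)} : Set k[X]).ncard : ℝ)

/-- The theorem for `f_1, ..., f_n` and the leading coefficient `u`. -/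
structure Statement : Prop where
  many : ∃ c : ℝ, 0 < c ∧ ∀ᶠ m : ℕ in atTop,
    c * (Nat.card k : ℝ) ^ m ≤ ((Twists g f u m).ncard : ℝ)
  each : ∀ (m : ℕ), ∀ D ∈ Twists g f u m, Regular k (fibres K f D)
  often : Often K g f u
  means : HasMeans K g f u
  law : HasLaw K g f u
  average : MeanTendsTo g f u (fun D => (albMass k (fibres K f D) : ℝ)) (3 ^ n)

end statements

/-- A positive proportion of the polynomials `f` of genus `g` and height `2 N` is in the family and has
discriminant prime to `Δ`, as `N → ∞`. -/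
def PositiveProportion (g : ℕ) {k : Type} [Field k] (Δ : k[X]) : Prop :=
  ∃ c : ℝ, 0 < c ∧ ∀ᶠ N : ℕ in atTop, 0 < {f : k[X][X] | HasHeight g (2 * N) f}.ncard ∧
    c * ({f : k[X][X] | HasHeight g (2 * N) f}.ncard : ℝ) ≤
      ({f : k[X][X] | InFamily g N f ∧ IsCoprime Δ (discriminant g f)}.ncard : ℝ)

theorem twoIndex_pi {n : ℕ} {G : Fin n → Type} [∀ i, CommGroup (G i)] :
    twoIndex (∀ i, G i) = ∏ i, twoIndex (G i) := by
  unfold twoIndex
  let φ : (∀ i, G i) →* ∀ i, G i ⧸ (powMonoidHom 2 : G i →* G i).range :=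
    { toFun := fun x i => (QuotientGroup.mk (x i) : G i ⧸ (powMonoidHom 2 : G i →* G i).range)
      map_one' := funext fun i => rfl
      map_mul' := fun x y => funext fun i => rfl }
  have hker : φ.ker = (powMonoidHom 2 : (∀ i, G i) →* ∀ i, G i).range := by
    ext x
    constructor
    · intro hx
      have h1 : ∀ i, ∃ y : G i, y ^ 2 = x i := by
        intro i
        have h2 : (QuotientGroup.mk (x i) : G i ⧸ (powMonoidHom 2 : G i →* G i).range) = 1 :=
          congrFun hx i
        exact (QuotientGroup.eq_one_iff _).1 h2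
      choose y hy using h1
      exact ⟨y, funext hy⟩
    · rintro ⟨y, rfl⟩
      refine funext fun i => ?_
      exact (QuotientGroup.eq_one_iff _).2 ⟨y i, rfl⟩
  have hsurj : Function.Surjective φ := by
    intro z
    choose x hx using fun i => QuotientGroup.mk_surjective (z i)
    exact ⟨x, funext hx⟩
  rw [← hker, Subgroup.index_ker, MonoidHom.range_eq_top.2 hsurj, Subgroup.card_top, Nat.card_pi]
  rfl

theorem albMass_eq {k : Type} [Field k] {K : Type} [Field K] [Algebra k[X] K]
    [IsFractionRing k[X] K] {n : ℕ} (F : Fin n → K[X]) : albMass k F = ∏ i, mass k (F i) := by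
  unfold albMass mass
  rw [Finset.prod_mul_distrib]
  congr 1
  · exact twoIndex_pi
  · exact Nat.card_pi

theorem NoTwoPart.of {k : Type} [Field k] {K : Type} [Field K] [Algebra k[X] K]
    [IsFractionRing k[X] K] {n : ℕ} {F : Fin n → K[X]} (h : ∀ i, Run7.h784.JPH.NoTwoPart k (F i)) :
    NoTwoPart k F := by
  refine ⟨⟨fun x y hxy => funext fun i => (h i).1.1 (congrFun hxy i), fun y => ?_⟩, fun i => (h i).2⟩
  choose x hx using fun i => (h i).1.2 (y i)
  exact ⟨x, funext hx⟩

section fam

variable {k : Type} [Field k]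

/-- the discriminant is prime to every prime modulo which the polynomial is irreducible -/
theorem not_dvd [Finite k] {P : k[X]} (hPm : P.Monic) (hP : Irreducible P) {g : ℕ} {f A : k[X][X]}
    (hm : f.Monic) (hd : f.natDegree = 2 * g + 1)
    (hA : Irreducible (A.map (Ideal.Quotient.mk (Ideal.span {P}))))
    (hc : ∀ j, P ∣ f.coeff j - A.coeff j) : ¬ P ∣ discriminant g f := by
  have hmax : (Ideal.span {P}).IsMaximal :=
    PrincipalIdealRing.isMaximal_of_irreducible hP
  let _ : Field (k[X] ⧸ Ideal.span {P}) := Ideal.Quotient.field _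
  have h1 : Module.Finite k (AdjoinRoot P) := hPm.finite_adjoinRoot
  have h2 : Finite (AdjoinRoot P) := Module.finite_of_finite k
  have hfin : Finite (k[X] ⧸ Ideal.span {P}) := h2
  set φ := Ideal.Quotient.mk (Ideal.span {P}) with hφ
  have h3 : f.map φ = A.map φ := by
    ext j
    rw [coeff_map, coeff_map, ← sub_eq_zero, ← map_sub, hφ, Ideal.Quotient.eq_zero_iff_mem,
      Ideal.mem_span_singleton]
    exact hc j
  rw [← h3] at hA
  have h4 : (f.map φ).Separable := PerfectField.separable_of_irreducible hA
  intro h5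
  have h6 : φ (f.resultant (derivative f) (2 * g + 1) (2 * g)) = 0 := by
    rw [hφ, Ideal.Quotient.eq_zero_iff_mem, Ideal.mem_span_singleton]
    exact h5
  rw [← resultant_map_map, ← derivative_map] at h6
  have hdeg : (f.map φ).natDegree = 2 * g + 1 := by rw [hm.natDegree_map, hd]
  obtain ⟨j, hj⟩ := Nat.exists_eq_add_of_le (m := (derivative (f.map φ)).natDegree) (n := 2 * g)
    (by refine (natDegree_derivative_le _).trans ?_; rw [hdeg]; omega)
  have h7 := resultant_add_right_deg (f.map φ) (derivative (f.map φ)) (2 * g + 1)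
    (derivative (f.map φ)).natDegree j le_rfl
  rw [← hj, h6] at h7
  have h8 : (f.map φ).coeff (2 * g + 1) = 1 := by
    rw [← hdeg]
    exact (hm.map φ).coeff_natDegree
  rw [h8, one_pow, one_mul, ← hdeg] at h7
  exact (resultant_eq_zero_iff.1 h7.symm).2 h4

theorem inFamily_of {g N : ℕ} {r : k[X]} {f : k[X][X]} (hr : Pool.Agent.N352.PJ.GoodR g r)
    {S : Finset k[X]} {h : k[X] → k[X][X]} (hf : Pool.Agent.N352.PJ.Fam g N r S h f) :
    InFamily g N f := by
  have h1 : atInfinity g (2 * N) f = r := by
    ext i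
    rw [Run7.h784.JPH.coeff_atInfinity]
    by_cases h1 : i = 2 * g + 1
    · rw [if_pos h1, h1]
      have h3 := hr.1.coeff_natDegree
      rw [hr.2.2.1] at h3
      exact h3.symm
    · rw [if_neg h1]
      by_cases h2 : i ≤ 2 * g
      · rw [if_pos h2, hf.inf i h2]
      · rw [if_neg h2, coeff_eq_zero_of_natDegree_lt (by rw [hr.2.2.1]; omega)]
  exact ⟨⟨hf.ht.mon, hf.ht.deg, hf.ht.tr, hf.ht.ht⟩, by rw [h1]; exact hr.2.1, hf.sq⟩

/-- A positive proportion of all `f` is in the family with discriminant prime to `Δ`. -/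
theorem many [Finite k] (g : ℕ) (hg : 1 ≤ g) (hp : ((2 * g + 1).factorial : k) ≠ 0)
    (Δ : k[X]) (hΔ : Δ ≠ 0) : PositiveProportion g Δ := by
  obtain ⟨r, hr⟩ := Pool.Agent.N738.PJ.gr g k hp
  obtain ⟨T, hTdef⟩ : ∃ T, T = Run7.h875.TS.prD Δ := ⟨_, rfl⟩
  have hT : ∀ P ∈ T, P.Monic ∧ Irreducible P := by
    intro P hP
    rw [hTdef] at hP
    have := (Run7.h875.TS.mem_prD hΔ).1 hP
    exact ⟨this.1, this.2.1⟩
  obtain ⟨⟨A, hA⟩, -⟩ := Pool.Agent.N615.JM.tch g k hg hp T hT
  obtain ⟨c, hc, h⟩ := Pool.Agent.N615.JM.famt g k hg hp r hr T A hA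
  obtain ⟨N₀, hN₀⟩ := h ∅ (fun _ => 0) (fun Q hQ => absurd hQ (Finset.notMem_empty Q))
    (Finset.disjoint_empty_left _)
  have hq : (0 : ℝ) < Nat.card k := by exact_mod_cast Nat.card_pos
  refine ⟨c / (Nat.card k : ℝ) ^ (2 * g), div_pos hc (pow_pos hq _), ?_⟩
  filter_upwards [eventually_ge_atTop N₀] with N hN
  have h1 := hN₀ N hN
  rw [Finset.prod_empty, Nat.cast_one, one_mul] at h1
  have hset : {f : k[X][X] | HasHeight g (2 * N) f} =
      {f : k[X][X] | Pool.Agent.N352.PJ.Ht g (2 * N) f} :=
    Set.ext fun f => ⟨fun h => ⟨h.monic, h.degree, h.trace, h.height⟩,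
      fun h => ⟨h.mon, h.deg, h.tr, h.ht⟩⟩
  obtain ⟨hfin, hle⟩ := Pool.Agent.N415.PJMAIN.ht_card (k := k) g (2 * N)
  have hsub : {f : k[X][X] | Pool.Agent.N874.JM.FamT g N r ∅ (fun _ => 0) T A f} ⊆
      {f : k[X][X] | InFamily g N f ∧ IsCoprime Δ (discriminant g f)} := by
    intro f hf
    refine ⟨inFamily_of hr hf.fam, ?_⟩
    refine isCoprime_of_irreducible_dvd (fun h0 => hΔ h0.1) fun z hz hzΔ hzd => ?_
    have hz0 : z ≠ 0 := hz.ne_zero
    have hPm : (normalize z).Monic := Polynomial.monic_normalize hz0
    have hPi : Irreducible (normalize z) := (normalize_associated z).symm.irreducible hz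
    have hPΔ : normalize z ∣ Δ := (normalize_associated z).dvd.trans hzΔ
    have hPd : normalize z ∣ discriminant g f := (normalize_associated z).dvd.trans hzd
    have hPT : normalize z ∈ T := by
      rw [hTdef]
      exact (Run7.h875.TS.mem_prD hΔ).2 ⟨hPm, hPi, hPΔ⟩
    obtain ⟨-, -, -, -, -, hAi⟩ := hA _ hPT
    exact not_dvd hPm hPi hf.fam.ht.mon hf.fam.ht.deg hAi (hf.con _ hPT) hPd
  have hsub2 : {f : k[X][X] | InFamily g N f ∧ IsCoprime Δ (discriminant g f)} ⊆
      {f : k[X][X] | Pool.Agent.N352.PJ.Ht g (2 * N) f} :=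
    fun f hf => ⟨hf.1.monic, hf.1.degree, hf.1.trace, hf.1.height⟩
  have h2 := Set.ncard_le_ncard hsub (hfin.subset hsub2)
  have h3 := Set.ncard_le_ncard hsub2 hfin
  rw [hset]
  have h4 : (0 : ℝ) < c * (Nat.card k : ℝ) ^ (2 * N * Pool.Agent.N352.PJ.dd g) :=
    mul_pos hc (pow_pos hq _)
  have h5 : (({f : k[X][X] | Pool.Agent.N874.JM.FamT g N r ∅ (fun _ => 0) T A f}.ncard : ℕ) : ℝ) ≤
      ({f : k[X][X] | InFamily g N f ∧ IsCoprime Δ (discriminant g f)}.ncard : ℝ) := by
    exact_mod_cast h2
  refine ⟨?_, ?_⟩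
  · have h6 : (0 : ℝ) <
        ({f : k[X][X] | InFamily g N f ∧ IsCoprime Δ (discriminant g f)}.ncard : ℝ) := by linarith
    have h7 : 0 < {f : k[X][X] | InFamily g N f ∧ IsCoprime Δ (discriminant g f)}.ncard := by
      exact_mod_cast h6
    omega
  · refine le_trans ?_ (h1.trans h5)
    have h8 : ({f : k[X][X] | Pool.Agent.N352.PJ.Ht g (2 * N) f}.ncard : ℝ) ≤
        (Nat.card k : ℝ) ^ (2 * N * Pool.Agent.N352.PJ.dd g + 2 * g) := by exact_mod_cast hle
    refine (mul_le_mul_of_nonneg_left h8 (div_nonneg hc.le (pow_nonneg hq.le _))).trans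
      (le_of_eq ?_)
    rw [pow_add]
    field_simp

end fam

/-- Project JPL without hypotheses. -/
theorem jfinm : Run7.h784.JP.P_JFINM :=
  Run7.h784.JP.aJFINM (Run7.h957.JP.T_JS0 Run7.h784.JP.aJLAST2 Run7.h784.TG.aCLSU
    (Run7.h286.PL.aEXS Run7.h286.PL.aEXI)) Run7.h286.PL.aNTM

/-- Let `k` be a finite field of odd characteristic with `q` elements, `K = k(t)`.
(I) Let `f_1, ..., f_n` be polynomials of the families of genus `g_i ≥ 1` and height `2 N_i`, `N_i ≥ 1`
(monic of degree `2 g_i + 1` over `k[t]` without next term, squarefree discriminant, irreducible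
reduction at infinity) with pairwise coprime discriminants, and `u ≠ 0` in `k`. For `D` in `Twists`
(squarefree of degree `m` with leading coefficient `u`, prime to the discriminants) let `A` be the
Albanese variety of the product over `K` of the curves `D y ^ 2 = f_i(x)`. Then
(many) there are at least `c q ^ m` such `D`, `c > 0`;
(each) `A(K)` has no points of order two, `(A(K) : 2 A(K))` is finite and
`(J_i(K) : 2 J_i(K)) * #Sha(J_i)[2]` is a power `2 ^ (s_i)` of two for the Jacobians `J_i`;
(often) for all large `m` for at least `0.2097 ^ n` of the `D` the group `A(K)` is uniquely divisible by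
two and the 2-primary part of the Tate-Shafarevich group of `A` is zero;
(means) the average over the `D` of every function `φ` of exponential growth of the vector `(s_i)` tends
to its expectation for the product of the laws of Poonen and Rains;
(law) in particular the proportion of the `D` with `s = d` tends to `α(d_1) ⋯ α(d_n)`;
(average) the average of `(A(K) : 2 A(K)) * #Sha(A)[2]` tends to `3 ^ n`.
(II) If the characteristic is larger than `2 g + 1`, `g ≥ 1` and `Δ ≠ 0`, a positive proportion of
all `f` of genus `g` and height `2 N` is in the family and has discriminant prime to `Δ`. -/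
theorem result (k : Type) [Field k] [Finite k] (h2 : (2 : k) ≠ 0)
    (K : Type) [Field K] [Algebra k[X] K] [IsFractionRing k[X] K] :
    (∀ (n : ℕ), 1 ≤ n → ∀ (g N : Fin n → ℕ), (∀ i, 1 ≤ g i) → (∀ i, 1 ≤ N i) →
      ∀ f : Fin n → k[X][X], (∀ i, InFamily (g i) (N i) (f i)) →
      (∀ i j, i ≠ j → IsCoprime (discriminant (g i) (f i)) (discriminant (g j) (f j))) →
      ∀ u : k, u ≠ 0 → Statement K g f u) ∧
    ∀ g : ℕ, 1 ≤ g → ((2 * g + 1).factorial : k) ≠ 0 → ∀ Δ : k[X], Δ ≠ 0 →
      PositiveProportion g Δ := by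
  refine ⟨fun n hn g N hg hN f hf hc u hu => ?_, fun g hg hp Δ hΔ => many g hg hp Δ hΔ⟩
  obtain ⟨m1, m2, m3, m4, m5, m6⟩ := Run7.h784.JPH.main jfinm Run7.h547.PL.qid
    Run7.h160.PL.num Run7.h286.PL.fTRU Run7.h286.PL.fZER k h2 K n hn g N hg hN f hf hc u hu
  have hcm : ∀ (m : ℕ), ∀ D ∈ Twists g f u m, ∀ i,
      Nat.card (Run7.h784.JPH.Selmer2 k (twist K (f i) D)) = mass k (twist K (f i) D) := by
    intro m D hD i
    have h := (Run7.h286.SelDef.one_tw ((hf i).fm (hg i) (hN i) h2) K hu (m := m) (D := D)
      ⟨hD.1, hD.2.1, hD.2.2.1, hD.2.2.2 i⟩).2.sequence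
    exact (Run7.h286.SelDef.card_selmer k _).symm.trans h
  have hlog : ∀ (m : ℕ), ∀ D ∈ Twists g f u m, logs K f D = Run7.h784.JPH.dims K f D := by
    intro m D hD
    funext i
    unfold logs Run7.h784.JPH.dims Run7.h784.JPH.selmerDim fibres
    rw [hcm m D hD i]
  refine ⟨m1, fun m D hD => ⟨fun P hP => ?_, ?_, fun i => ?_⟩, ?_, fun φ hφ => ?_, fun d => ?_, ?_⟩
  · funext i
    exact (m2 m D hD i).torsion (P i) (congrFun hP i)
  · have h1 : twoIndex (AlbPoints (fibres K f D)) = ∏ i, twoIndex (J 2 (fibres K f D i) K) :=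
      twoIndex_pi
    rw [h1]
    exact Finset.prod_ne_zero_iff.2 fun i _ => (m2 m D hD i).index_ne
  · have h1 := (m2 m D hD i).card
    unfold Run7.h784.JPH.selmerDim at h1
    rw [hcm m D hD i] at h1
    exact h1
  · filter_upwards [m6] with m hm
    refine hm.trans ?_
    have hfin : (Twists g f u m).Finite := (Run7.h875.TS.fin_deg k m).subset fun D hD => hD.2.1
    have hsub : ({D ∈ Twists g f u m | ∀ i, Run7.h784.JPH.NoTwoPart k (twist K (f i) D)} : Set k[X]) ⊆
        ({D ∈ Twists g f u m | NoTwoPart k (fibres K f D)} : Set k[X]) :=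
      fun D hD => ⟨hD.1, NoTwoPart.of hD.2⟩
    exact_mod_cast Set.ncard_le_ncard hsub (hfin.subset (Set.sep_subset _ _))
  · refine (m3 φ hφ).congr fun m => ?_
    congr 1
    exact finsum_mem_congr rfl fun D hD => by rw [hlog m D hD]
  · refine (m4 d).congr fun m => ?_
    have h1 : ({D ∈ Twists g f u m | Run7.h784.JPH.dims K f D = d} : Set k[X]) =
        ({D ∈ Twists g f u m | logs K f D = d} : Set k[X]) := Set.ext fun D =>
      ⟨fun h => ⟨h.1, by rw [hlog m D h.1]; exact h.2⟩,
        fun h => ⟨h.1, by rw [← hlog m D h.1]; exact h.2⟩⟩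
    rw [h1]
  · refine m5.congr fun m => ?_
    congr 1
    refine finsum_mem_congr rfl fun D hD => ?_
    rw [albMass_eq]
    push_cast
    exact Finset.prod_congr rfl fun i _ => by rw [hcm m D hD i]; rfl

end Pool.Agent.Results.MP_2a05c8_ag.TwistedFibreProducts
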